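import Pool.Agent.Q194.Cache.Combine

/-!
# The minimax regret of online caching of inelastic contents

For every right `d`-regular network and every `N ≥ 2C|J|` the minimax regret of the inelastic
problem is, up to factors that depend only on `d`,

  `√(C T) * ∑ i, √|∂⁺(i)|`.

This quantity depends on the network and not only on `|J|`: it always lies between `d √|J|` and
`d |J|`, and both extremes are attained (every user adjacent to all the caches; disjoint stars).
So neither of the two known bounds can be improved as a function of `|J|` alone.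
-/

namespace Pool.Agent.Results.MP_887eca_lc.NetworkOrder

open Finset Q194.Cache

theorem result :
    -- the order of the minimax regret for every network
    (∀ (I J : Type) [Fintype I] [Fintype J] [DecidableEq J] [Nonempty J] (nb : I → Finset J)
      (d C N T : ℕ), 1 ≤ d → 1 ≤ C → RightRegular nb d → 2 * C * Fintype.card J ≤ N →
      minimaxRegret nb N C T ≤ √(C * T) * ∑ i, √(#(nb i)) ∧
      (C * Fintype.card J ≤ T →
        1 / (40 * d ^ 2) * (√(C * T) * ∑ i, √(#(nb i))) ≤ minimaxRegret nb N C T)) ∧
    -- the range of the sum
    (∀ (I J : Type) [Fintype I] [Fintype J] [DecidableEq J] [Nonempty J] (nb : I → Finset J)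
      (d : ℕ), RightRegular nb d →
      d * √(Fintype.card J) ≤ ∑ i, √(#(nb i)) ∧ ∑ i, √(#(nb i)) ≤ d * Fintype.card J) ∧
    -- both ends are attained for all numbers of caches
    (∀ (J : Type) [Fintype J] [DecidableEq J] (d : ℕ),
      (RightRegular (fun _ : Fin d => (univ : Finset J)) d ∧
        ∑ _i : Fin d, √(#(univ : Finset J)) = d * √(Fintype.card J)) ∧
      (RightRegular (fun p : J × Fin d => ({p.1} : Finset J)) d ∧
        ∑ p : J × Fin d, √(#({p.1} : Finset J)) = d * Fintype.card J)) := by
  refine ⟨?_, ?_, ?_⟩
  · intro I J _ _ _ _ nb d C N T hd hC hreg hN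
    exact ⟨upper nb N C T, fun hT => lower hreg hd hC hN hT⟩
  · intro I J _ _ _ _ nb d hreg
    exact ⟨range_lower hreg, range_upper hreg⟩
  · intro J _ _ d
    refine ⟨⟨complete_reg d, by simp⟩, ⟨stars_reg d, ?_⟩⟩
    simp [mul_comm]

end Pool.Agent.Results.MP_887eca_lc.NetworkOrder
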